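import Pool.Agent.Y223.G.Stm

/-!
# Project G, job G-ASTEP: reduction of the order of the stabilisers
-/

set_option autoImplicit false

namespace Pool.Agent.Y574.G

open Pool.Agent.Y223.G

section aux

variable {k K : Type} [CommRing k] [IsDomain k] [Field K] [Algebra k K]

theorem sat_mul {M : Submodule k K} {a b : ℕ} {x y : K} (hx : x ∈ sat (M ^ a))
    (hy : y ∈ sat (M ^ b)) : x * y ∈ sat (M ^ (a + b)) := by
  obtain ⟨s, hs, hsx⟩ := hx
  obtain ⟨t, ht, hty⟩ := hy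
  refine ⟨s * t, mul_ne_zero hs ht, ?_⟩
  have e1 : (s * t) • (x * y) = (s • x) * (t • y) := by
    rw [smul_mul_smul_comm]
  rw [e1, pow_add]
  exact Submodule.mul_mem_mul hsx hty

theorem sat_pow {M : Submodule k K} {a : ℕ} {x : K} (hx : x ∈ sat (M ^ a)) (n : ℕ) :
    x ^ n ∈ sat (M ^ (a * n)) := by
  induction n with
  | zero =>
    refine ⟨1, one_ne_zero, ?_⟩
    rw [one_smul, pow_zero, mul_zero, pow_zero]
    exact Submodule.one_le.1 le_rfl
  | succ n ih =>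
    rw [pow_succ, mul_add, mul_one]
    exact sat_mul ih hx

theorem quot_mem (C : Subalgebra k (LP K)) {M : Submodule k K} {H : K}
    (h : ∀ m ∈ M, ∃ s : k, s ≠ 0 ∧ hm 0 (s • (m / H)) ∈ C) (N : ℕ) :
    ∀ m ∈ M ^ N, ∃ s : k, s ≠ 0 ∧ hm 0 (s • (m / H ^ N)) ∈ C := by
  induction N with
  | zero =>
    intro m hm'
    rw [pow_zero, Submodule.mem_one] at hm'
    obtain ⟨c, rfl⟩ := hm'
    refine ⟨1, one_ne_zero, ?_⟩
    rw [pow_zero, div_one, one_smul, ← algebraMap_LP]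
    exact C.algebraMap_mem c
  | succ N ih =>
    intro m hm'
    rw [pow_succ] at hm'
    induction hm' using Submodule.mul_induction_on' with
    | mem_mul_mem a ha b hb =>
      obtain ⟨s, hs, h1⟩ := ih a ha
      obtain ⟨t, ht, h2⟩ := h b hb
      refine ⟨s * t, mul_ne_zero hs ht, ?_⟩
      have e1 : (s * t) • (a * b / H ^ (N + 1)) = (s • (a / H ^ N)) * (t • (b / H)) := by
        rw [smul_mul_smul_comm, pow_succ, div_mul_div_comm]
      have h3 := C.mul_mem h1 h2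
      rw [hm_mul, add_zero, ← e1] at h3
      exact h3
    | add a _ b _ iha ihb =>
      obtain ⟨s, hs, h1⟩ := iha
      obtain ⟨t, ht, h2⟩ := ihb
      refine ⟨s * t, mul_ne_zero hs ht, ?_⟩
      have e1 : (s * t) • ((a + b) / H ^ (N + 1)) =
          t • (s • (a / H ^ (N + 1))) + s • (t • (b / H ^ (N + 1))) := by
        rw [add_div, smul_add, smul_smul, smul_smul, mul_comm t s]
      rw [e1, hm_add]
      refine C.add_mem ?_ ?_
      · rw [← smul_hm t]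
        exact C.smul_mem h1 t
      · rw [← smul_hm s]
        exact C.smul_mem h2 s

omit [IsDomain k] in
/-- a homogeneous element of positive degree times a constant in the low part -/
theorem down_mem {C : Subalgebra k (LP K)} {ρ : ℕ} (hρ : 2 ≤ ρ) (hs1 : hm (-1) 1 ∈ C) {s0 : k}
    (h0 : hm 1 (algebraMap k K s0) ∈ C) (L : ℕ) {y : K} (hy : hm L y ∈ C) :
    hm L (s0 ^ L • y) ∈ low C ρ := by
  have hρ0 : (1 : ℤ) < ρ := by exact_mod_cast (by omega : 1 < ρ)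
  have h1 : hm 0 y ∈ C := by
    have h2 := C.mul_mem (C.pow_mem hs1 L) hy
    rw [hm_pow, hm_mul, one_pow, one_mul] at h2
    have e : (L : ℤ) * -1 + L = 0 := by ring
    rwa [e] at h2
  have h3 := (low C ρ).mul_mem (mem_low (ρ := ρ) h1 (by linarith))
    ((low C ρ).pow_mem (mem_low (ρ := ρ) h0 hρ0) L)
  rw [hm_pow, hm_mul, zero_add, mul_one] at h3
  have e2 : y * algebraMap k K s0 ^ L = s0 ^ L • y := by
    rw [Algebra.smul_def, map_pow, mul_comm]
  rwa [e2] at h3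

theorem mem_of_mul_mem' {Kf : Subfield K} {a y : K} (ha : a ≠ 0) (h1 : a ∈ Kf)
    (h2 : a * y ∈ Kf) : y ∈ Kf := by
  have e : y = a⁻¹ * (a * y) := by rw [← mul_assoc, inv_mul_cancel₀ ha, one_mul]
  rw [e]
  exact Kf.mul_mem (Kf.inv_mem h1) h2

end aux

theorem t_ASTEP (hgens : S_GENS) (hval : S_VAL) (hlowft : S_LOWFT) (hlowreg : S_LOWREG) :
    S_ASTEP := by
  intro k K _ _ _ _ _ _ P M₀ Kf ρ hρ T _ C H h
  classical
  have hρ0 : (0 : ℤ) < ρ := by exact_mod_cast (by omega : 0 < ρ)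
  have hρ1 : (1 : ℤ) < ρ := by exact_mod_cast (by omega : 1 < ρ)
  choose r hr hrρ u hu0 hu hu' using h.un
  choose J hJ hJn d x hx hD using fun t => hgens k K (C t) (h.ft t) (h.gr t) ρ (r t) hρ (hr t)
    (hrρ t) (u t) (hu0 t) (hu t) (h.ss t)
  let L : ℕ := ρ.factorial
  have hL0 : 0 < L := Nat.factorial_pos ρ
  have hLd : ∀ e : ℕ, 0 < e → e ≤ ρ → e ∣ L := fun e he heρ => Nat.dvd_factorial he heρ
  let U : T → K := fun t => u t ^ (L / r t)
  have hU0 : ∀ t, U t ≠ 0 := fun t => pow_ne_zero _ (hu0 t)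
  have hU : ∀ t, hm L (U t) ∈ C t := by
    intro t
    have h1 := (C t).pow_mem (hu t) (L / r t)
    rw [hm_pow] at h1
    have h2 : ((L / r t : ℕ) : ℤ) * r t = L := by
      exact_mod_cast Nat.div_mul_cancel (hLd _ (hr t) (hrρ t))
    rwa [h2] at h1
  have hU' : ∀ t, hm (-(L : ℤ)) (U t)⁻¹ ∈ C t := by
    intro t
    have h1 := (C t).pow_mem (hu' t) (L / r t)
    rw [hm_pow, inv_pow] at h1
    have h2 : ((L / r t : ℕ) : ℤ) * r t = L := by
      exact_mod_cast Nat.div_mul_cancel (hLd _ (hr t) (hrρ t))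
    have h3 : ((L / r t : ℕ) : ℤ) * -(r t : ℤ) = -(L : ℤ) := by rw [mul_neg, h2]
    rwa [h3] at h1
  let T' := Σ t, J t
  have hfinJ : ∀ t, Fintype (J t) := fun t => Fintype.ofFinite _
  have hfinT : Fintype T := Fintype.ofFinite T
  let q : T' → ℕ := fun p => L / d p.1 p.2
  have hq : ∀ p : T', q p * d p.1 p.2 = L := fun p =>
    Nat.div_mul_cancel (hLd _ (hx p.1 p.2).1 (hx p.1 p.2).2.1.le)
  have hqL : ∀ p : T', q p ≤ L := fun p => Nat.div_le_self _ _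
  have hq1 : ∀ p : T', 1 ≤ q p := by
    intro p
    by_contra hc
    have : q p = 0 := by omega
    have h1 := hq p
    rw [this, zero_mul] at h1
    omega
  let hh : T' → K := fun p => (U p.1)⁻¹ * x p.1 p.2 ^ q p
  have hh0 : ∀ p, hh p ≠ 0 := fun p => mul_ne_zero (inv_ne_zero (hU0 _))
    (pow_ne_zero _ (hx p.1 p.2).2.2.1)
  have hxm : ∀ p : T', hm (d p.1 p.2) (x p.1 p.2) ∈ C p.1 := fun p => (hx p.1 p.2).2.2.2
  have hxpow : ∀ p : T', hm (d p.1 p.2) (x p.1 p.2) ^ q p = hm L (x p.1 p.2 ^ q p) := by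
    intro p
    rw [hm_pow]
    congr 1
    exact_mod_cast hq p
  have hhC : ∀ p : T', hm 0 (hh p) ∈ C p.1 := by
    intro p
    have h1 := (C p.1).mul_mem (hU' p.1) ((C p.1).pow_mem (hxm p) (q p))
    rw [hxpow, hm_mul, neg_add_cancel] at h1
    exact h1
  -- the modification
  obtain ⟨n₀, N3, hmo⟩ : ∃ n₀ N3 : ℕ, P → 1 ≤ n₀ ∧ (∀ t, H t ∈ sat (M₀ ^ n₀) ∧
      (∀ m ∈ M₀ ^ n₀, ∃ s : k, s ≠ 0 ∧ hm 0 (s • (m / H t)) ∈ C t) ∧
      ∀ f, hm 0 f ∈ C t → ∃ N₀ : ℕ, ∀ N, N₀ ≤ N → H t ^ N * f ∈ sat (M₀ ^ (n₀ * N))) ∧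
      ∀ (p : T') (N : ℕ), N3 ≤ N → H p.1 ^ N * hh p ∈ sat (M₀ ^ (n₀ * N)) := by
    by_cases hP : P
    · obtain ⟨n₀, hn1, hn2⟩ := h.mo hP
      choose N₀ hN₀ using fun p : T' => (hn2 p.1).2.2 (hh p) (hhC p)
      refine ⟨n₀, Finset.univ.sup N₀, fun _ => ⟨hn1, hn2, fun p N hN => hN₀ p N ?_⟩⟩
      exact (Finset.le_sup (f := N₀) (Finset.mem_univ p)).trans hN
    · exact ⟨0, 0, fun h' => absurd h' hP⟩
  -- the constants
  choose n1 hn1 using fun (t : T) (p : T') => h.gl t p.1 _ (hxm p)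
  choose n2 hn2 using fun (t t' : T) => h.gl t t' _ (hU' t')
  let N1 : ℕ := Finset.univ.sup fun t => Finset.univ.sup (n1 t)
  let N2 : ℕ := Finset.univ.sup fun t => Finset.univ.sup (n2 t)
  have hN1 : ∀ t p, n1 t p ≤ N1 := fun t p => (Finset.le_sup (f := n1 t) (Finset.mem_univ p)).trans
    (Finset.le_sup (f := fun t => Finset.univ.sup (n1 t)) (Finset.mem_univ t))
  have hN2 : ∀ t p, n2 t p ≤ N2 := fun t p => (Finset.le_sup (f := n2 t) (Finset.mem_univ p)).trans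
    (Finset.le_sup (f := fun t => Finset.univ.sup (n2 t)) (Finset.mem_univ t))
  let N : ℕ := L * N1 + N2 + 1 + N3
  have hzlow : ∀ t t', hm 0 (H t' / H t) ∈ low (C t) ρ := fun t t' => mem_low (h.rt t t') hρ0
  -- first estimate
  have F1 : ∀ (t : T) (p : T') (m a : ℕ), m * N1 ≤ a →
      hm 0 (H p.1 / H t) ^ a * hm (d p.1 p.2) (x p.1 p.2) ^ m ∈ low (C t) ρ := by
    intro t p m a ha
    obtain ⟨b, rfl⟩ := Nat.exists_eq_add_of_le ha
    obtain ⟨c, hc⟩ := Nat.exists_eq_add_of_le (hN1 t p)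
    have h1 : hm 0 (H p.1 / H t) ^ n1 t p * hm (d p.1 p.2) (x p.1 p.2) ∈ low (C t) ρ := by
      have h2 := hn1 t p
      rw [hm_pow, hm_mul] at h2 ⊢
      refine mem_low h2 ?_
      rw [mul_zero, zero_add]
      exact_mod_cast (hx p.1 p.2).2.1
    have h3 : hm 0 (H p.1 / H t) ^ (m * N1 + b) * hm (d p.1 p.2) (x p.1 p.2) ^ m =
        hm 0 (H p.1 / H t) ^ (m * c + b) *
          (hm 0 (H p.1 / H t) ^ n1 t p * hm (d p.1 p.2) (x p.1 p.2)) ^ m := by
      rw [hc]; ring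
    rw [h3]
    exact (low (C t) ρ).mul_mem ((low (C t) ρ).pow_mem (hzlow t p.1) _)
      ((low (C t) ρ).pow_mem h1 _)
  have F2 : ∀ (t t' : T) (m a : ℕ), m * N2 ≤ a →
      hm 0 (H t' / H t) ^ a * hm 0 ((U t')⁻¹ * U t) ^ m ∈ low (C t) ρ := by
    intro t t' m a ha
    obtain ⟨b, rfl⟩ := Nat.exists_eq_add_of_le ha
    obtain ⟨c, hc⟩ := Nat.exists_eq_add_of_le (hN2 t t')
    have h1 : hm 0 (H t' / H t) ^ n2 t t' * hm 0 ((U t')⁻¹ * U t) ∈ low (C t) ρ := by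
      have h2 := (C t).mul_mem (hn2 t t') (hU t)
      have h4 : hm 0 (H t' / H t) ^ n2 t t' * hm (-(L : ℤ)) (U t')⁻¹ * hm L (U t) =
          hm 0 (H t' / H t) ^ n2 t t' * hm 0 ((U t')⁻¹ * U t) := by
        rw [mul_assoc, hm_mul, neg_add_cancel]
      rw [h4] at h2
      rw [hm_pow, hm_mul] at h2 ⊢
      refine mem_low h2 ?_
      rw [mul_zero, zero_add]
      exact hρ0
    have h3 : hm 0 (H t' / H t) ^ (m * N2 + b) * hm 0 ((U t')⁻¹ * U t) ^ m =
        hm 0 (H t' / H t) ^ (m * c + b) *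
          (hm 0 (H t' / H t) ^ n2 t t' * hm 0 ((U t')⁻¹ * U t)) ^ m := by
      rw [hc]; ring
    rw [h3]
    exact (low (C t) ρ).mul_mem ((low (C t) ρ).pow_mem (hzlow t t') _)
      ((low (C t) ρ).pow_mem h1 _)
  have F3 : ∀ (t t' : T), ∀ f ∈ low (C t') ρ, ∃ n : ℕ,
      hm 0 (H t' / H t) ^ n * f ∈ low (C t) ρ := by
    intro t t'
    have h1 : low (C t') ρ ≤ loc (low (C t) ρ) (hm 0 (H t' / H t)) (hzlow t t') := by
      conv_lhs => unfold low
      rw [Algebra.adjoin_le_iff]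
      rintro _ ⟨hf, e, a, he, rfl⟩
      obtain ⟨n, hn⟩ := h.gl t t' _ hf
      refine ⟨n, ?_⟩
      rw [hm_pow, hm_mul] at hn ⊢
      refine mem_low hn ?_
      rw [mul_zero, zero_add]
      exact he
    exact fun f hf => h1 hf
  let H' : T' → K := fun p => H p.1 ^ N * hh p
  have hH'0 : ∀ p, H' p ≠ 0 := fun p => mul_ne_zero (pow_ne_zero _ (h.H0 _)) (hh0 p)
  let C' : T' → Subalgebra k (LP K) := fun p =>
    loc (low (C p.1) ρ) (hm (d p.1 p.2) (x p.1 p.2))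
      (mem_low (hxm p) (by exact_mod_cast (hx p.1 p.2).2.1))
  -- the ratio of the markers
  have hratio : ∀ (p p' : T') (n : ℕ), hm (d p.1 p.2) (x p.1 p.2) ^ (n * q p) *
      hm 0 (H' p' / H' p) ^ n = hm 0 (H p'.1 / H p.1) ^ (n * N) *
        hm 0 ((U p'.1)⁻¹ * U p.1) ^ n * hm (d p'.1 p'.2) (x p'.1 p'.2) ^ (n * q p') := by
    intro p p' n
    have h1 : hm (d p.1 p.2) (x p.1 p.2) ^ (q p) * hm 0 (H' p' / H' p) =
        hm 0 (H p'.1 / H p.1) ^ N * hm 0 ((U p'.1)⁻¹ * U p.1) *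
          hm (d p'.1 p'.2) (x p'.1 p'.2) ^ (q p') := by
      rw [hxpow, hxpow, hm_pow, hm_mul, hm_mul, hm_mul]
      congr 1
      · ring
      · change x p.1 p.2 ^ q p * ((H p'.1 ^ N * ((U p'.1)⁻¹ * x p'.1 p'.2 ^ q p')) /
          (H p.1 ^ N * ((U p.1)⁻¹ * x p.1 p.2 ^ q p))) = _
        have e1 := h.H0 p.1
        have e2 := hU0 p.1
        have e3 := hU0 p'.1
        have e4 := (hx p.1 p.2).2.2.1
        rw [div_pow]
        field_simp
    have h2 : hm (d p.1 p.2) (x p.1 p.2) ^ (n * q p) * hm 0 (H' p' / H' p) ^ n =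
        (hm (d p.1 p.2) (x p.1 p.2) ^ (q p) * hm 0 (H' p' / H' p)) ^ n := by ring
    rw [h2, h1]
    ring
  have hlft : ∀ t, Algebra.FiniteType k (low (C t) ρ) := by
    intro t
    rcases (hrρ t).eq_or_lt with heq | hlt
    · refine hlowft k K (C t) (h.ft t) (h.gr t) ρ (by omega) (u t) (hu0 t) ?_ ?_
      · rw [← heq]; exact hu t
      · rw [← heq]; exact hu' t
    · rw [low_eq_of_unit (h.gr t) (hr t) hlt (hu0 t) (hu t) (hu' t)]
      exact h.ft t
  have hlrg : ∀ t, IsRegularRing (low (C t) ρ) := by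
    intro t
    rcases (hrρ t).eq_or_lt with heq | hlt
    · refine hlowreg k K (C t) (h.ft t) (h.rg t) (h.gr t) ρ (by omega) (u t) (hu0 t) ?_ ?_
      · rw [← heq]; exact hu t
      · rw [← heq]; exact hu' t
    · rw [low_eq_of_unit (h.gr t) (hr t) hlt (hu0 t) (hu t) (hu' t)]
      exact h.rg t
  refine ⟨T', inferInstance, C', H', ?_⟩
  refine
    { H0 := hH'0
      HK := fun p => Kf.mul_mem (Kf.pow_mem (h.HK _) _) (h.inF _ _ _ (hhC p))
      ft := fun p => ft_loc (hlft p.1) _ (isUnit_hm (hx p.1 p.2).2.2.1)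
      rg := fun p => regular_loc (hlrg p.1) _ (isUnit_hm (hx p.1 p.2).2.2.1)
      gr := fun p => gr_loc (gr_low _ _) (hx p.1 p.2).2.2.1 _
      ss := fun p => le_loc _ _ _ (mem_low (h.ss p.1) (by linarith))
      un := ?_
      fr := fun p y hy => by
        obtain ⟨a, b, ha, hb, hb0, hab⟩ := h.fr p.1 y hy
        exact ⟨a, b, le_loc _ _ _ (mem_low ha hρ0), le_loc _ _ _ (mem_low hb hρ0), hb0, hab⟩
      inF := fun p e y hy => by
        obtain ⟨n, hn⟩ := hy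
        have h1 := low_le _ _ hn
        rw [hm_pow, hm_mul] at h1
        exact mem_of_mul_mem' (pow_ne_zero n (hx p.1 p.2).2.2.1)
          (Kf.pow_mem (h.inF _ _ _ (hxm p)) n) (h.inF _ _ _ h1)
      rt := ?_
      gl := ?_
      cv := ?_
      ve := fun hP p => by
        obtain ⟨s, hs, hs1⟩ := h.ve hP p.1
        exact ⟨s, hs, le_loc _ _ _ (mem_low hs1 hρ1)⟩
      mo := ?_ }
  · intro p
    refine ⟨d p.1 p.2, (hx p.1 p.2).1, by have := (hx p.1 p.2).2.1; omega, x p.1 p.2,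
      (hx p.1 p.2).2.2.1, ?_, ?_⟩
    · exact le_loc _ _ _ (mem_low (hxm p) (by exact_mod_cast (hx p.1 p.2).2.1))
    · refine inv_mem_loc _ _ _ _ ?_
      rw [hm_mul, add_neg_cancel, mul_inv_cancel₀ (hx p.1 p.2).2.2.1, hm_one]
  · intro p p'
    refine ⟨q p, ?_⟩
    have h1 := hratio p p' 1
    rw [one_mul, one_mul, pow_one, pow_one, one_mul] at h1
    rw [h1]
    have h2 : N2 + q p' * N1 ≤ N := by
      have := Nat.mul_le_mul_right N1 (hqL p')
      change N2 + q p' * N1 ≤ L * N1 + N2 + 1 + N3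
      omega
    obtain ⟨c, hc⟩ := Nat.exists_eq_add_of_le h2
    have h3 : hm 0 (H p'.1 / H p.1) ^ N * hm 0 ((U p'.1)⁻¹ * U p.1) *
          hm (d p'.1 p'.2) (x p'.1 p'.2) ^ (q p') =
        (hm 0 (H p'.1 / H p.1) ^ (N2 + c) * hm 0 ((U p'.1)⁻¹ * U p.1) ^ 1) *
          (hm 0 (H p'.1 / H p.1) ^ (q p' * N1) * hm (d p'.1 p'.2) (x p'.1 p'.2) ^ (q p')) := by
      rw [hc]; ring
    rw [h3]
    exact (low (C p.1) ρ).mul_mem (F2 p.1 p'.1 1 _ (by omega)) (F1 p.1 p' _ _ le_rfl)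
  · intro p p' f hf
    obtain ⟨m, hm'⟩ := hf
    obtain ⟨n0, hn0⟩ := F3 p.1 p'.1 _ hm'
    let n := n0 + m
    refine ⟨n, n * q p, ?_⟩
    have h1 : m ≤ n * q p' := by
      have := Nat.mul_le_mul_left n (hq1 p')
      have h2 : n = n0 + m := rfl
      omega
    obtain ⟨c, hc⟩ := Nat.exists_eq_add_of_le h1
    have h2 : n * N2 + c * N1 + n0 ≤ n * N := by
      have e1 : c ≤ n * L := by
        have := Nat.mul_le_mul_left n (hqL p')
        omega
      have e2 := Nat.mul_le_mul_right N1 e1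
      have e3 : n * N = n * L * N1 + n * N2 + n + n * N3 := by
        change n * (L * N1 + N2 + 1 + N3) = _
        ring
      have e4 : n = n0 + m := rfl
      rw [e3]
      omega
    obtain ⟨c', hc'⟩ := Nat.exists_eq_add_of_le h2
    have h3 : hm (d p.1 p.2) (x p.1 p.2) ^ (n * q p) * (hm 0 (H' p' / H' p) ^ n * f) =
        (hm 0 (H p'.1 / H p.1) ^ (n * N2 + c') * hm 0 ((U p'.1)⁻¹ * U p.1) ^ n) *
          ((hm 0 (H p'.1 / H p.1) ^ (c * N1) * hm (d p'.1 p'.2) (x p'.1 p'.2) ^ c) *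
          (hm 0 (H p'.1 / H p.1) ^ n0 * (hm (d p'.1 p'.2) (x p'.1 p'.2) ^ m * f))) := by
      rw [← mul_assoc, hratio, hc, hc']
      ring
    rw [h3]
    exact (low (C p.1) ρ).mul_mem (F2 p.1 p'.1 n _ (by omega))
      ((low (C p.1) ρ).mul_mem (F1 p.1 p' _ _ le_rfl) hn0)
  · intro V hV
    obtain ⟨t, ht⟩ := h.cv V hV
    have hJt := hJn t
    obtain ⟨j, hj⟩ := Finite.exists_max fun j : J t => V.valuation (x t j) ^ (q ⟨t, j⟩)
    refine ⟨⟨t, j⟩, ?_⟩
    rintro y ⟨n, hn⟩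
    refine hval k K (C t) ρ (J t) (d t) (x t) (hx t) (hD t) V ht j ?_ y n hn
    intro i
    have h1 := hj i
    have h2 : (V.valuation (x t i) ^ d t j) ^ L ≤ (V.valuation (x t j) ^ d t i) ^ L := by
      have h3 := pow_le_pow_left' h1 (d t i * d t j)
      have e1 := hq ⟨t, i⟩
      have e2 := hq ⟨t, j⟩
      change q ⟨t, i⟩ * d t i = L at e1
      change q ⟨t, j⟩ * d t j = L at e2
      rw [← pow_mul, ← pow_mul] at h3 ⊢
      have e3 : q ⟨t, i⟩ * (d t i * d t j) = d t j * L := by rw [← e1]; ring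
      have e4 : q ⟨t, j⟩ * (d t i * d t j) = d t i * L := by rw [← e2]; ring
      rwa [e3, e4] at h3
    exact le_of_pow_le_pow_left₀ hL0.ne' zero_le h2

  · intro hP
    obtain ⟨hn1, hn2, hn3⟩ := hmo hP
    have hN1' : 1 ≤ N := by
      change 1 ≤ L * N1 + N2 + 1 + N3
      omega
    have hN3' : N3 ≤ N - 1 := by
      change N3 ≤ L * N1 + N2 + 1 + N3 - 1
      omega
    refine ⟨n₀ * N, Nat.mul_pos hn1 hN1', fun p => ⟨hn3 p N (by omega), ?_, ?_⟩⟩
    · intro m hm'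
      rw [pow_mul] at hm'
      obtain ⟨s1, hs1, h1⟩ := quot_mem (C p.1) (hn2 p.1).2.1 N m hm'
      obtain ⟨s0, hs0, h0⟩ := h.ve hP p.1
      refine ⟨s0 ^ L * s1, mul_ne_zero (pow_ne_zero _ hs0) hs1, q p, ?_⟩
      have h2 := (C p.1).mul_mem h1 (hU p.1)
      rw [hm_mul, zero_add] at h2
      have h3 := down_mem hρ (h.ss p.1) h0 L h2
      rw [hxpow, hm_mul, add_zero]
      have e1 : x p.1 p.2 ^ q p * ((s0 ^ L * s1) • (m / H' p)) =
          s0 ^ L • (s1 • (m / H p.1 ^ N) * U p.1) := by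
        change x p.1 p.2 ^ q p * ((s0 ^ L * s1) •
          (m / (H p.1 ^ N * ((U p.1)⁻¹ * x p.1 p.2 ^ q p)))) = _
        have e2 := h.H0 p.1
        have e3 := hU0 p.1
        have e4 := (hx p.1 p.2).2.2.1
        rw [Algebra.smul_def, Algebra.smul_def, Algebra.smul_def, map_mul]
        field_simp
      rw [e1]
      exact h3
    · intro f hf
      obtain ⟨j, hj⟩ := hf
      have hg : hm 0 (f * hh p ^ j) ∈ C p.1 := by
        have h1 := low_le _ _ hj
        obtain ⟨c, hc⟩ := Nat.exists_eq_add_of_le (hq1 p)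
        have h2 := (C p.1).mul_mem h1 (((C p.1).mul_mem
          ((C p.1).pow_mem (hxm p) (c * j)) ((C p.1).pow_mem (hU' p.1) j)))
        have e1 : hm (d p.1 p.2) (x p.1 p.2) ^ j * hm 0 f *
            (hm (d p.1 p.2) (x p.1 p.2) ^ (c * j) * hm (-(L : ℤ)) (U p.1)⁻¹ ^ j) =
            hm 0 (f * hh p ^ j) := by
          have e2 : hm (d p.1 p.2) (x p.1 p.2) ^ j * hm 0 f *
            (hm (d p.1 p.2) (x p.1 p.2) ^ (c * j) * hm (-(L : ℤ)) (U p.1)⁻¹ ^ j) =
            hm 0 f * (hm (-(L : ℤ)) (U p.1)⁻¹ * hm (d p.1 p.2) (x p.1 p.2) ^ q p) ^ j := by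
            rw [hc]; ring
          rw [e2, hxpow, hm_mul, neg_add_cancel, hm_pow, hm_mul, mul_zero, add_zero]
        rw [e1] at h2
        exact h2
      obtain ⟨N0, hN0⟩ := (hn2 p.1).2.2 _ hg
      refine ⟨j + N0, fun N'' hN'' => ?_⟩
      obtain ⟨b, hb⟩ := Nat.exists_eq_add_of_le (show j ≤ N'' by omega)
      obtain ⟨N', hN'⟩ := Nat.exists_eq_add_of_le hN1'
      have h1 := sat_pow (hn3 p N' (by omega)) b
      have h2 := hN0 (b + N * j) (by
        have : b ≤ b + N * j := Nat.le_add_right _ _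
        omega)
      have h3 := sat_mul h1 h2
      have e1 : (H p.1 ^ N' * hh p) ^ b * (H p.1 ^ (b + N * j) * (f * hh p ^ j)) =
          H' p ^ N'' * f := by
        change _ = (H p.1 ^ N * hh p) ^ N'' * f
        rw [hb, hN']
        ring
      have e2 : n₀ * N' * b + n₀ * (b + N * j) = n₀ * N * N'' := by
        rw [hb, hN']
        ring
      rw [e1, e2] at h3
      exact h3

end Pool.Agent.Y574.G
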